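import Pool.Agent.H95.Iss

set_option autoImplicit false
open Pool.Agent.H95.Iss NNReal

theorem Pool.Agent.Results.MP_cf29c0_an.NoDiss.result :
    ∃ (X U I : Type) (_ : NormedAddCommGroup X) (_ : NormedSpace ℝ X)
      (_ : NormedAddCommGroup U) (_ : NormedSpace ℝ U) (_ : NormedAddCommGroup I) (_ : NormedSpace ℝ I)
      (ι : I →ₗ[ℝ] (ℝ≥0 → U)) (φ : ℝ≥0 → X → I → X), CompleteSpace X ∧ ¬ FiniteDimensional ℝ X ∧
        CS ι φ ∧ Impl φ (fun x => ‖x‖₊) ∧ ∀ W, ¬ Diss φ W :=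
  Pool.Agent.H95.Iss.main
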